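import Pool.Agent.H68.LCS.Targets

/-!
# Row PTX of part A of the board lpq: the selected point of a compact set
-/

set_option autoImplicit false

open Set Filter Topology
open scoped Pointwise

namespace Pool.Agent.H38.LCS

open Pool.Agent.H93.CP Pool.Agent.H7.LP Pool.Agent.H7.LQ Pool.Agent.H68.LCS

theorem sl_succ_pos {F : Type} [TopologicalSpace F] (B : Bf F) (K : Set F) (n : ℕ)
    (h : (sl B K n ∩ closure (B.U n)).Nonempty) :
    sl B K (n + 1) = sl B K n ∩ closure (B.U n) := by
  rw [sl, if_pos h]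

theorem sl_succ_neg {F : Type} [TopologicalSpace F] (B : Bf F) (K : Set F) (n : ℕ)
    (h : ¬ (sl B K n ∩ closure (B.U n)).Nonempty) : sl B K (n + 1) = sl B K n := by
  rw [sl, if_neg h]

theorem pf_PTX : T_PTX := by
  intro F _ _ B K hK hne
  have hsub : ∀ n, sl B K (n + 1) ⊆ sl B K n := by
    intro n
    by_cases h : (sl B K n ∩ closure (B.U n)).Nonempty
    · rw [sl_succ_pos B K n h]
      exact inter_subset_left
    · rw [sl_succ_neg B K n h]
  have hcn : ∀ n, IsCompact (sl B K n) ∧ (sl B K n).Nonempty := by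
    intro n
    induction n with
    | zero => exact ⟨hK, hne⟩
    | succ n ih =>
      by_cases h : (sl B K n ∩ closure (B.U n)).Nonempty
      · rw [sl_succ_pos B K n h]
        exact ⟨ih.1.inter_right isClosed_closure, h⟩
      · rw [sl_succ_neg B K n h]
        exact ih
  obtain ⟨z, hz⟩ := IsCompact.nonempty_iInter_of_sequence_nonempty_isCompact_isClosed (sl B K)
    hsub (fun n => (hcn n).2) (hcn 0).1 (fun n => (hcn n).1.isClosed)
  have hz1 : ∀ n, z ∈ sl B K n := fun n => Set.mem_iInter.mp hz n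
  have key : ∀ n, z ∈ closure (B.U n) → sl B K (n + 1) = sl B K n ∩ closure (B.U n) :=
    fun n hn => sl_succ_pos B K n ⟨z, hz1 n, hn⟩
  refine ⟨z, hz1 0, hz1, ?_, ?_⟩
  · intro z' hz'
    by_contra hzz
    have hO : ({z'}ᶜ : Set F) ∈ 𝓝 z := isOpen_compl_singleton.mem_nhds fun h => hzz h.symm
    obtain ⟨t, ht1, ht2⟩ := B.bas z _ hO
    have h1 := hz' (t + 1)
    rw [key t (subset_closure ht1)] at h1
    exact ht2 h1.2 rfl
  · intro O hO
    constructor
    · intro hzO
      obtain ⟨t, ht1, ht2⟩ := B.bas z O (hO.mem_nhds hzO)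
      exact ⟨t, ⟨z, hz1 t, subset_closure ht1⟩, ht2⟩
    · rintro ⟨n, hn, hnO⟩
      have h1 := hz1 (n + 1)
      rw [sl_succ_pos B K n hn] at h1
      exact hnO h1.2

end Pool.Agent.H38.LCS
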